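import Mathlib
import Pool.Agent.H344R3.PD.Depth

/-!
# Pattern languages: inclusions whose lengths differ by at most `2|A| - 3`
-/

namespace Pool.Agent.W6.PAT

open Pool.Agent.PatDepth Pool.Agent.H344R3.PD

variable {A : Type}

/-- position `i` of the pattern `r` carries a letter or a variable which occurs earlier -/
def Rel (r : List (ℕ ⊕ A)) (i : ℕ) : Prop :=
  (∃ b, r[i]? = some (Sum.inr b)) ∨ (∃ s, r[i]? = some s ∧ ∃ e < i, r[e]? = some s)

lemma Rel.lt {r : List (ℕ ⊕ A)} {i : ℕ} (h : Rel r i) : i < r.length := by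
  rcases h with ⟨b, h⟩ | ⟨s, h, _⟩
  · exact (List.getElem?_eq_some_iff.mp h).1
  · exact (List.getElem?_eq_some_iff.mp h).1

open Classical in
/-- number of relation positions `≥ a` -/
noncomputable def cnt (r : List (ℕ ⊕ A)) (a : ℕ) : ℕ :=
  ((Finset.range r.length).filter (fun i => a ≤ i ∧ Rel r i)).card

lemma cnt_succ_of_rel {r : List (ℕ ⊕ A)} {a : ℕ} (h : Rel r a) : cnt r a = cnt r (a + 1) + 1 := by
  classical
  unfold cnt
  have h1 : (Finset.range r.length).filter (fun i => a ≤ i ∧ Rel r i) =
      insert a ((Finset.range r.length).filter (fun i => a + 1 ≤ i ∧ Rel r i)) := by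
    ext i
    simp only [Finset.mem_filter, Finset.mem_range, Finset.mem_insert]
    constructor
    · rintro ⟨h1, h2, h3⟩
      rcases Nat.eq_or_lt_of_le h2 with h4 | h4
      · left; exact h4.symm
      · right; exact ⟨h1, h4, h3⟩
    · rintro (rfl | ⟨h1, h2, h3⟩)
      · exact ⟨h.lt, le_rfl, h⟩
      · exact ⟨h1, by omega, h3⟩
  rw [h1, Finset.card_insert_of_notMem]
  simp

lemma cnt_succ_of_not {r : List (ℕ ⊕ A)} {a : ℕ} (h : ¬ Rel r a) : cnt r a = cnt r (a + 1) := by
  classical
  unfold cnt
  congr 1
  ext i
  simp only [Finset.mem_filter, Finset.mem_range]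
  constructor
  · rintro ⟨h1, h2, h3⟩
    refine ⟨h1, ?_, h3⟩
    rcases Nat.eq_or_lt_of_le h2 with h4 | h4
    · subst h4; exact absurd h3 h
    · exact h4
  · rintro ⟨h1, h2, h3⟩
    exact ⟨h1, by omega, h3⟩

lemma cnt_pos {r : List (ℕ ⊕ A)} {a : ℕ} (h : 0 < cnt r a) : a < r.length := by
  classical
  unfold cnt at h
  obtain ⟨i, hi⟩ := Finset.card_pos.mp h
  simp only [Finset.mem_filter, Finset.mem_range] at hi
  omega

lemma cnt_zero (r : List (ℕ ⊕ A)) : cnt r 0 + nvar r = r.length := by
  classical
  have h1 : ((Finset.range r.length).filter (fun i => Rel r i)).card +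
      ((Finset.range r.length).filter (fun i => ¬ Rel r i)).card = r.length := by
    rw [Finset.card_filter_add_card_filter_not, Finset.card_range]
  have h2 : ((Finset.range r.length).filter (fun i => ¬ Rel r i)).card = nvar r := by
    unfold nvar
    let v : ℕ → ℕ := fun i => match r[i]? with
      | some (Sum.inl x) => x
      | _ => 0
    have hv : ∀ i x, r[i]? = some (Sum.inl x) → v i = x := by
      intro i x h
      simp only [v, h]
    have hnew : ∀ i, i < r.length → ¬ Rel r i → ∃ x, r[i]? = some (Sum.inl x) ∧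
        ∀ e < i, r[e]? ≠ some (Sum.inl x) := by
      intro i hi hr
      have h3 : r[i]? = some r[i] := List.getElem?_eq_getElem hi
      cases hs : r[i] with
      | inl x =>
        rw [hs] at h3
        refine ⟨x, h3, fun e he h4 => hr (Or.inr ⟨_, h3, e, he, h4⟩)⟩
      | inr b =>
        rw [hs] at h3
        exact absurd (Or.inl ⟨b, h3⟩) hr
    refine Finset.card_bij (fun i _ => v i) ?_ ?_ ?_
    · intro i hi
      simp only [Finset.mem_filter, Finset.mem_range] at hi
      obtain ⟨x, hx, _⟩ := hnew i hi.1 hi.2
      rw [hv i x hx, mem_vars]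
      exact List.mem_iff_getElem?.mpr ⟨i, hx⟩
    · intro i hi j hj hij
      simp only [Finset.mem_filter, Finset.mem_range] at hi hj
      obtain ⟨x, hx, hx'⟩ := hnew i hi.1 hi.2
      obtain ⟨y, hy, hy'⟩ := hnew j hj.1 hj.2
      rw [hv i x hx, hv j y hy] at hij
      subst hij
      rcases lt_trichotomy i j with h | h | h
      · exact absurd hx (hy' i h)
      · exact h
      · exact absurd hy (hx' j h)
    · intro x hx
      rw [mem_vars] at hx
      have hex : ∃ i, r[i]? = some (Sum.inl x) := List.mem_iff_getElem?.mp hx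
      refine ⟨Nat.find hex, ?_, hv _ _ (Nat.find_spec hex)⟩
      simp only [Finset.mem_filter, Finset.mem_range]
      refine ⟨(List.getElem?_eq_some_iff.mp (Nat.find_spec hex)).1, ?_⟩
      rintro (⟨b, hb⟩ | ⟨s, hs, e, he, hse⟩)
      · rw [Nat.find_spec hex] at hb
        simp at hb
      · rw [Nat.find_spec hex] at hs
        have : s = Sum.inl x := (Option.some.inj hs).symm
        subst this
        exact Nat.find_min hex he hse
  have h3 : cnt r 0 = ((Finset.range r.length).filter (fun i => Rel r i)).card := by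
    unfold cnt
    congr 1
    ext i
    simp
  rw [h3, ← h2, h1]

/-- the next usable relation position -/
lemma find_pos {p q : List (ℕ ⊕ A)} {j D : ℕ} : ∀ m a : ℕ, a + m = q.length →
    cnt p (a + j) + D < cnt q a → ∃ Q, a ≤ Q ∧ Rel q Q ∧ ¬ Rel p (Q + j) ∧
      cnt p (Q + j) + D < cnt q Q := by
  intro m
  induction m with
  | zero =>
    intro a ha h
    have := cnt_pos (r := q) (a := a) (by omega)
    omega
  | succ m ih =>
    intro a ha h
    by_cases h1 : Rel q a
    · by_cases h2 : Rel p (a + j)
      · have h3 := cnt_succ_of_rel h1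
        have h4 := cnt_succ_of_rel h2
        have h5 : a + j + 1 = a + 1 + j := by omega
        rw [h5] at h4
        obtain ⟨Q, hQ, h6⟩ := ih (a + 1) (by omega) (by omega)
        exact ⟨Q, by omega, h6⟩
      · exact ⟨a, le_rfl, h1, h2, h⟩
    · have h3 := cnt_succ_of_not h1
      have h5 : a + j + 1 = a + 1 + j := by omega
      have h4 : cnt p (a + 1 + j) ≤ cnt p (a + j) := by
        rw [← h5]
        by_cases h2 : Rel p (a + j)
        · have := cnt_succ_of_rel h2; omega
        · have := cnt_succ_of_not h2; omega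
      obtain ⟨Q, hQ, h6⟩ := ih (a + 1) (by omega) (by omega)
      exact ⟨Q, by omega, h6⟩

/-- heads `h` and levels `s` of a way to read the word `w` with the pattern `q` -/
def Val (w : List A) (q : List (ℕ ⊕ A)) (l : ℕ) (h : ℕ ⊕ A → A) (s : ℕ → ℕ) : Prop :=
  (∀ b, h (Sum.inr b) = b) ∧ (∀ i j, i ≤ j → j ≤ q.length → s i ≤ s j) ∧
    (∀ i ≤ q.length, s i ≤ l) ∧ ∀ i x, q[i]? = some x → w[i + s i]? = some (h x)

lemma subst_take_succ (τ : ℕ → List A) (q : List (ℕ ⊕ A)) {i : ℕ} (hi : i < q.length) :
    subst τ (q.take (i + 1)) = subst τ (q.take i) ++ Sum.elim τ (fun a => [a]) q[i] := by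
  rw [List.take_succ_eq_append_getElem hi, subst_append, subst_cons, subst_nil, List.append_nil]

lemma exists_val {w : List A} {q : List (ℕ ⊕ A)} {l : ℕ} (hw : w ∈ Lang q)
    (hl : w.length = q.length + l) : ∃ h s, Val w q l h s := by
  obtain ⟨τ, hτ, rfl⟩ := hw
  let st : ℕ → ℕ := fun i => (subst τ (q.take i)).length
  let hd : ℕ ⊕ A → A := fun x => match x with
    | Sum.inl x => (τ x).head (hτ x)
    | Sum.inr a => a
  have hblk : ∀ x : ℕ ⊕ A, (Sum.elim τ (fun a => [a]) x)[0]? = some (hd x) := by
    intro x
    cases x with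
    | inl x =>
      simp only [Sum.elim_inl, hd]
      rw [List.head_eq_getElem, List.getElem?_eq_getElem]
    | inr a => simp [hd]
  have hblk1 : ∀ x : ℕ ⊕ A, 1 ≤ (Sum.elim τ (fun a => [a]) x).length := by
    intro x
    have := (List.getElem?_eq_some_iff.mp (hblk x)).1
    omega
  have hst : ∀ i, i < q.length → st i + 1 ≤ st (i + 1) := by
    intro i hi
    show (subst τ (q.take i)).length + 1 ≤ (subst τ (q.take (i + 1))).length
    rw [subst_take_succ τ q hi, List.length_append]
    have := hblk1 q[i]
    omega
  have hge : ∀ i ≤ q.length, i ≤ st i := by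
    intro i hi
    induction i with
    | zero => exact Nat.zero_le _
    | succ i ih =>
      have h1 := ih (by omega)
      have h2 := hst i (by omega)
      omega
  have hmono : ∀ i j, i ≤ j → j ≤ q.length → st i - i ≤ st j - j := by
    intro i j hij
    induction j, hij using Nat.le_induction with
    | base => intro _; exact le_rfl
    | succ j hj ih =>
      intro h
      have h1 := ih (by omega)
      have h2 := hst j (by omega)
      have h3 := hge j (by omega)
      omega
  have hend : st q.length = q.length + l := by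
    show (subst τ (q.take q.length)).length = _
    rw [List.take_length]
    exact hl
  refine ⟨hd, fun i => st i - i, fun b => rfl, hmono, ?_, ?_⟩
  · intro i hi
    have h1 := hmono i q.length hi le_rfl
    rw [hend] at h1
    show st i - i ≤ l
    omega
  · intro i x hx
    obtain ⟨hi, hx'⟩ := List.getElem?_eq_some_iff.mp hx
    have h1 : i + (st i - i) = st i := by
      have := hge i hi.le
      omega
    show (subst τ q)[i + (st i - i)]? = _
    rw [h1]
    have h2 : subst τ q = subst τ (q.take (i + 1)) ++ subst τ (q.drop (i + 1)) := by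
      rw [← subst_append, List.take_append_drop]
    rw [h2, subst_take_succ τ q hi, List.append_assoc, List.getElem?_append_right (le_refl _)]
    show (_)[(subst τ (q.take i)).length - (subst τ (q.take i)).length]? = _
    rw [Nat.sub_self, List.getElem?_append_left (hblk1 _), hx']
    exact hblk x

end Pool.Agent.W6.PAT
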