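import Mathlib
import Pool.Agent.W6.PAT.Core

namespace Pool.Agent.W6.PAT

open Pool.Agent.PatDepth Pool.Agent.H344R3.PD

variable {A : Type}

lemma get_lets (f : ℕ → A) (p : List (ℕ ⊕ A)) (t : ℕ) :
    (lets f p)[t]? = (p[t]?).map (Sum.elim f id) := by
  rw [lets, List.getElem?_map]

/-- at a new variable of `p` the letter can be chosen outside a small set -/
lemma pick [Fintype A] {p : List (ℕ ⊕ A)} {T : ℕ} (hT : T < p.length) (hn : ¬ Rel p T)
    (f : ℕ → A) (B : Finset A) (hB : B.card < Fintype.card A) :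
    ∃ f1 : ℕ → A, (∀ t < T, (lets f1 p)[t]? = (lets f p)[t]?) ∧
      ∃ c, c ∉ B ∧ (lets f1 p)[T]? = some c := by
  classical
  have h3 : p[T]? = some p[T] := List.getElem?_eq_getElem hT
  obtain ⟨c, hc⟩ : ∃ c, c ∉ B := by
    by_contra hcon
    push Not at hcon
    have : B = Finset.univ := Finset.eq_univ_iff_forall.mpr hcon
    rw [this, Finset.card_univ] at hB
    exact lt_irrefl _ hB
  cases hs : p[T] with
  | inr b =>
    rw [hs] at h3
    exact absurd (Or.inl ⟨b, h3⟩) hn
  | inl x =>
    rw [hs] at h3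
    refine ⟨Function.update f x c, ?_, c, hc, ?_⟩
    · intro t ht
      rw [get_lets, get_lets]
      cases hp : p[t]? with
      | none => rfl
      | some y =>
        cases y with
        | inr b => rfl
        | inl y =>
          have hyx : y ≠ x := by
            rintro rfl
            exact hn (Or.inr ⟨_, h3, t, ht, hp⟩)
          rw [Option.map_some, Option.map_some, Sum.elim_inl, Sum.elim_inl,
            Function.update_of_ne hyx]
    · rw [get_lets, h3, Option.map_some, Sum.elim_inl, Function.update_self]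

variable [Fintype A]

lemma read_const [Nontrivial A] {p q : List (ℕ ⊕ A)} {l Q j : ℕ} {b : A}
    (hQ : q[Q]? = some (Sum.inr b)) (hT : Q + j < p.length) (hn : ¬ Rel p (Q + j)) (f : ℕ → A) :
    ∃ f1 : ℕ → A, (∀ t < Q + j, (lets f1 p)[t]? = (lets f p)[t]?) ∧
      ∀ w : List A, (∀ t ≤ Q + j, w[t]? = (lets f1 p)[t]?) →
        ∀ h s, Val w q l h s → s Q ≠ j := by
  classical
  obtain ⟨f1, h1, c, hc, h2⟩ := pick hT hn f {b} (by simpa using Fintype.one_lt_card)
  refine ⟨f1, h1, fun w hw h s hv hs => ?_⟩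
  have h3 := hv.2.2.2 Q _ hQ
  rw [hs, hw _ le_rfl, h2, hv.1 b] at h3
  exact hc (by simpa using Option.some.inj h3)

lemma read_var {p q : List (ℕ ⊕ A)} {l Q j e : ℕ} {x : ℕ ⊕ A} (a0 : A)
    (hQ : q[Q]? = some x) (he : q[e]? = some x) (heQ : e < Q)
    (hT : Q + j < p.length) (hn : ¬ Rel p (Q + j)) (f : ℕ → A) (I : Finset ℕ)
    (hI : I.card < Fintype.card A) (hIj : ∀ a ∈ I, a ≤ j) :
    ∃ f1 : ℕ → A, (∀ t < Q + j, (lets f1 p)[t]? = (lets f p)[t]?) ∧
      ∀ w : List A, (∀ t ≤ Q + j, w[t]? = (lets f1 p)[t]?) →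
        ∀ h s, Val w q l h s → s Q = j → s e ∉ I := by
  classical
  obtain ⟨f1, h1, c, hc, h2⟩ := pick hT hn f (I.image fun a => ((lets f p)[e + a]?).getD a0)
    (lt_of_le_of_lt Finset.card_image_le hI)
  refine ⟨f1, h1, fun w hw h s hv hs hI' => hc ?_⟩
  have h3 := hv.2.2.2 Q _ hQ
  have h4 := hv.2.2.2 e _ he
  rw [hs, hw _ le_rfl, h2] at h3
  have h5 : e + s e < Q + j := by
    have := hIj _ hI'
    omega
  rw [hw _ h5.le, h1 _ h5] at h4
  rw [Finset.mem_image]
  refine ⟨s e, hI', ?_⟩
  rw [h4, Option.getD_some]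
  exact (Option.some.inj h3).symm

lemma kill1 [Nontrivial A] {p q : List (ℕ ⊕ A)} {l Q j : ℕ}
    (hj : j + 2 ≤ Fintype.card A) (hR : Rel q Q) (hT : Q + j < p.length)
    (hn : ¬ Rel p (Q + j)) (f : ℕ → A) :
    ∃ f1 : ℕ → A, (∀ t < Q + j, (lets f1 p)[t]? = (lets f p)[t]?) ∧
      ∀ w : List A, (∀ t ≤ Q + j, w[t]? = (lets f1 p)[t]?) →
        ∀ h s, Val w q l h s → s Q ≠ j := by
  obtain ⟨a0, _, _⟩ := exists_pair_ne A
  rcases hR with ⟨b, hb⟩ | ⟨x, hx, e, he, hxe⟩
  · exact read_const hb hT hn f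
  · obtain ⟨f1, h1, h2⟩ := read_var (l := l) (j := j) a0 hx hxe he hT hn f (Finset.range (j + 1))
      (by rw [Finset.card_range]; omega)
      (fun a ha => by rw [Finset.mem_range] at ha; omega)
    refine ⟨f1, h1, fun w hw h s hv hs => h2 w hw h s hv hs ?_⟩
    have h3 := (List.getElem?_eq_some_iff.mp hx).1
    have h4 := hv.2.1 e Q he.le h3.le
    rw [Finset.mem_range]
    omega

lemma kill2 [Nontrivial A] {p q : List (ℕ ⊕ A)} {l Q Q' j : ℕ}
    (hj : Fintype.card A ≤ j + 1) (hj' : j + 3 ≤ 2 * Fintype.card A) (hQQ : Q < Q')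
    (hR : Rel q Q) (hR' : Rel q Q')
    (hT : Q + j < p.length) (hT' : Q' + j < p.length)
    (hn : ¬ Rel p (Q + j)) (hn' : ¬ Rel p (Q' + j)) (f : ℕ → A) :
    ∃ f1 : ℕ → A, (∀ t < Q + j, (lets f1 p)[t]? = (lets f p)[t]?) ∧
      ∀ w : List A, (∀ t ≤ Q' + j, w[t]? = (lets f1 p)[t]?) →
        ∀ h s, Val w q l h s → s Q = j → s Q' ≠ j := by
  obtain ⟨a0, _, _⟩ := exists_pair_ne A
  have hs2 : 1 < Fintype.card A := Fintype.one_lt_card
  rcases hR with ⟨b, hb⟩ | ⟨x, hx, e, he, hxe⟩
  · obtain ⟨f1, h1, h2⟩ := read_const (l := l) hb hT hn f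
    exact ⟨f1, h1, fun w hw h s hv hs => absurd hs
      (h2 w (fun t ht => hw t (by omega)) h s hv)⟩
  · rcases hR' with ⟨b, hb⟩ | ⟨y, hy, d, hd, hyd⟩
    · obtain ⟨f1, h1, h2⟩ := read_const (l := l) hb hT' hn' f
      exact ⟨f1, fun t ht => h1 t (by omega), fun w hw h s hv _ => h2 w hw h s hv⟩
    · have hQl := (List.getElem?_eq_some_iff.mp hx).1
      have hQl' := (List.getElem?_eq_some_iff.mp hy).1
      rcases Nat.lt_or_ge d e with hde | hde
      · obtain ⟨f1, h1, h2⟩ := read_var (l := l) (j := j) a0 hx hxe he hT hn f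
          (Finset.Icc (Fintype.card A - 1) j)
          (by rw [Nat.card_Icc]; omega)
          (fun a ha => (Finset.mem_Icc.mp ha).2)
        obtain ⟨f2, h3, h4⟩ := read_var (l := l) (j := j) a0 hy hyd hd hT' hn' f1
          (Finset.range (Fintype.card A - 1))
          (by rw [Finset.card_range]; omega)
          (fun a ha => by rw [Finset.mem_range] at ha; omega)
        refine ⟨f2, fun t ht => (h3 t (by omega)).trans (h1 t ht), fun w hw h s hv hs hs' => ?_⟩
        have h5 := h2 w (fun t ht => (hw t (by omega)).trans (h3 t (by omega))) h s hv hs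
        have h6 := h4 w hw h s hv hs'
        rw [Finset.mem_Icc] at h5
        rw [Finset.mem_range] at h6
        have h7 := hv.2.1 e Q he.le hQl.le
        have h8 := hv.2.1 d e hde.le (by omega)
        omega
      · obtain ⟨f1, h1, h2⟩ := read_var (l := l) (j := j) a0 hx hxe he hT hn f
          (Finset.range (j + 2 - Fintype.card A))
          (by rw [Finset.card_range]; omega)
          (fun a ha => by rw [Finset.mem_range] at ha; omega)
        obtain ⟨f2, h3, h4⟩ := read_var (l := l) (j := j) a0 hy hyd hd hT' hn' f1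
          (Finset.Icc (j + 2 - Fintype.card A) j)
          (by rw [Nat.card_Icc]; omega)
          (fun a ha => (Finset.mem_Icc.mp ha).2)
        refine ⟨f2, fun t ht => (h3 t (by omega)).trans (h1 t ht), fun w hw h s hv hs hs' => ?_⟩
        have h5 := h2 w (fun t ht => (hw t (by omega)).trans (h3 t (by omega))) h s hv hs
        have h6 := h4 w hw h s hv hs'
        rw [Finset.mem_range] at h5
        rw [Finset.mem_Icc] at h6
        have h7 := hv.2.1 d Q' hd.le hQl'.le
        have h8 := hv.2.1 e d hde (by omega)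
        omega

/-- the wastes still allowed at level `j` -/
def Wst (S l j : ℕ) : ℕ := l + 1 - max j (S - 1)

lemma main [Nontrivial A] {p q : List (ℕ ⊕ A)} {l : ℕ} (hpq : p.length = q.length + l)
    (hl : l + 3 ≤ 2 * Fintype.card A) : ∀ d j, j + d = l + 1 → ∀ (a : ℕ) (f : ℕ → A),
    cnt p (a + j) + Wst (Fintype.card A) l j < cnt q a →
    ∃ f' : ℕ → A, (∀ t < a + j, (lets f' p)[t]? = (lets f p)[t]?) ∧
      ∀ h s, Val (lets f' p) q l h s → ¬ j ≤ s a := by
  intro d
  induction d with
  | zero =>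
    intro j hj a f hc
    refine ⟨f, fun _ _ => rfl, fun h s hv hs => ?_⟩
    have h1 := cnt_pos (r := q) (a := a) (by omega)
    have h2 := hv.2.2.1 a h1.le
    omega
  | succ d ih =>
    intro j hj a f hc
    have hlt := cnt_pos (r := q) (a := a) (by omega)
    rcases Nat.lt_or_ge (j + 1) (Fintype.card A) with hjs | hjs
    · -- one reading
      obtain ⟨Q, haQ, hR, hn, hc'⟩ := find_pos (q.length - a) a (by omega) hc
      have hQl := hR.lt
      obtain ⟨f1, h1, h2⟩ := kill1 (l := l) (by omega) hR (by omega) hn f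
      have hc2 : cnt p (Q + (j + 1)) + Wst (Fintype.card A) l (j + 1) < cnt q Q := by
        have h3 := cnt_succ_of_not hn
        have h4 : Q + j + 1 = Q + (j + 1) := by omega
        rw [h4] at h3
        have h5 : Wst (Fintype.card A) l (j + 1) = Wst (Fintype.card A) l j := by
          unfold Wst
          rw [max_eq_right (by omega), max_eq_right (by omega)]
        rw [h5, ← h3]
        exact hc'
      obtain ⟨f', h6, h7⟩ := ih (j + 1) (by omega) Q f1 hc2
      refine ⟨f', fun t ht => (h6 t (by omega)).trans (h1 t (by omega)), fun h s hv hs => ?_⟩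
      have h8 := h7 h s hv
      have h9 := h2 (lets f' p) (fun t ht => h6 t (by omega)) h s hv
      have h10 := hv.2.1 a Q haQ hQl.le
      omega
    · -- two readings
      have hW : Wst (Fintype.card A) l j = Wst (Fintype.card A) l (j + 1) + 1 := by
        unfold Wst
        rw [max_eq_left (by omega), max_eq_left (by omega)]
        omega
      obtain ⟨Q, haQ, hR, hn, hc'⟩ := find_pos (q.length - a) a (by omega) hc
      have hQl := hR.lt
      have hc1 : cnt p (Q + 1 + j) + Wst (Fintype.card A) l (j + 1) < cnt q (Q + 1) := by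
        have h3 := cnt_succ_of_not hn
        have h4 : Q + j + 1 = Q + 1 + j := by omega
        rw [h4] at h3
        have h5 := cnt_succ_of_rel hR
        omega
      obtain ⟨Q', haQ', hR', hn', hc''⟩ := find_pos (q.length - (Q + 1)) (Q + 1) (by omega) hc1
      have hQl' := hR'.lt
      obtain ⟨f1, h1, h2⟩ := kill2 (l := l) hjs (by omega) (show Q < Q' by omega) hR hR'
        (by omega) (by omega) hn hn' f
      have hc2 : cnt p (Q' + (j + 1)) + Wst (Fintype.card A) l (j + 1) < cnt q Q' := by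
        have h3 := cnt_succ_of_not hn'
        have h4 : Q' + j + 1 = Q' + (j + 1) := by omega
        rw [h4] at h3
        rw [← h3]
        exact hc''
      obtain ⟨f', h6, h7⟩ := ih (j + 1) (by omega) Q' f1 hc2
      refine ⟨f', fun t ht => (h6 t (by omega)).trans (h1 t (by omega)), fun h s hv hs => ?_⟩
      have h8 := h7 h s hv
      have h9 := h2 (lets f' p) (fun t ht => h6 t (by omega)) h s hv
      have h10 := hv.2.1 a Q haQ hQl.le
      have h11 := hv.2.1 Q Q' (by omega) hQl'.le
      have h12 : s Q = j := by omega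
      have h13 := h9 h12
      omega

/-- **The inequality.** -/
theorem rel_le [Nontrivial A] {p q : List (ℕ ⊕ A)} (h : Lang p ⊆ Lang q)
    (hl : p.length + 3 ≤ q.length + 2 * Fintype.card A) :
    q.length + nvar p ≤ p.length + nvar q + (p.length - q.length + 2 - Fintype.card A) := by
  obtain ⟨l, hpq⟩ : ∃ l, p.length = q.length + l := ⟨_, ne_length h⟩
  by_contra hcon
  push Not at hcon
  have h1 := cnt_zero p
  have h2 := cnt_zero q
  have hs2 : 1 < Fintype.card A := Fintype.one_lt_card
  obtain ⟨a0, _, _⟩ := exists_pair_ne A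
  have hc : cnt p (0 + 0) + Wst (Fintype.card A) l 0 < cnt q 0 := by
    have h3 : Wst (Fintype.card A) l 0 = p.length - q.length + 2 - Fintype.card A := by
      unfold Wst
      rw [max_eq_right (by omega)]
      omega
    rw [h3]
    simp only [Nat.add_zero]
    omega
  obtain ⟨f', _, h4⟩ := main hpq (by omega) (l + 1) 0 (by omega) 0 (fun _ => a0) hc
  obtain ⟨hd, s, hv⟩ := exists_val (l := l) (h (lets_mem f' p)) (by rw [lets_length]; exact hpq)
  exact h4 hd s hv (Nat.zero_le _)

end Pool.Agent.W6.PAT
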