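import Mathlib
import Pool.Agent.W6.PAT.Game

namespace Pool.Agent.W6.PAT

open Pool.Agent.PatDepth Pool.Agent.H344R3.PD

/-! ### numbers -/

lemma pow_le_choose' {S : ℕ} (hS : 1 ≤ S) (l : ℕ) : S ^ l ≤ (l * S).choose l := by
  induction l with
  | zero => simp
  | succ l ih =>
    obtain ⟨n, hn⟩ : ∃ n, (l + 1) * S = n + 1 := ⟨(l + 1) * S - 1, by
      have : 1 ≤ (l + 1) * S := Nat.mul_pos (by omega) hS
      omega⟩
    have h1 := Nat.add_one_mul_choose_eq n l
    have h2 : l * S ≤ n := by
      have : (l + 1) * S = l * S + S := by ring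
      omega
    have h3 : S ^ l ≤ n.choose l := ih.trans (Nat.choose_le_choose l h2)
    rw [hn]
    have h4 : (l + 1) * (S * n.choose l) = (l + 1) * (n + 1).choose (l + 1) := by
      rw [mul_comm (l + 1) ((n + 1).choose (l + 1)), ← h1, ← hn]
      ring
    have h5 := Nat.eq_of_mul_eq_mul_left (by omega) h4
    rw [← h5, pow_succ, mul_comm]
    exact Nat.mul_le_mul_left _ h3

lemma num_all {N S l0 : ℕ} (hS : 1 ≤ S) (h : (N - l0 - 1).choose l0 < S ^ l0) (l : ℕ)
    (hl : l0 ≤ l) : (N - l - 1).choose l < S ^ l := by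
  induction l, hl using Nat.le_induction with
  | base => exact h
  | succ l hl ih =>
    have h1 : (N - l - 1) + 1 ≤ (l + 1) * S := by
      by_contra hcon
      push Not at hcon
      have h2 : l * S ≤ N - l - 1 := by
        have : (l + 1) * S = l * S + S := by ring
        omega
      have h3 := (pow_le_choose' hS l).trans (Nat.choose_le_choose l h2)
      omega
    exact lt_of_le_of_lt (Nat.choose_le_choose _ (by omega)) (choose_step ih h1)

lemma pow_self_le (l : ℕ) : l ^ l ≤ 3 ^ l * l.factorial := by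
  induction l with
  | zero => simp
  | succ l ih =>
    have h1 : (l + 1) ^ l ≤ 3 * l ^ l := by
      rcases Nat.eq_zero_or_pos l with rfl | hl
      · simp
      · have hl' : (0 : ℝ) < l := by exact_mod_cast hl
        have h2 : (1 + 1 / (l : ℝ)) ^ l ≤ Real.exp 1 := by
          calc (1 + 1 / (l : ℝ)) ^ l ≤ (Real.exp (1 / (l : ℝ))) ^ l := by
                apply pow_le_pow_left₀ (by positivity)
                have := Real.add_one_le_exp (1 / (l : ℝ))
                linarith
            _ = Real.exp 1 := by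
                rw [← Real.exp_nat_mul]
                congr 1
                field_simp
        have h3 : Real.exp 1 ≤ 3 := Real.exp_one_lt_d9.le.trans (by norm_num)
        have h4 : ((l : ℝ) + 1) ^ l ≤ 3 * (l : ℝ) ^ l := by
          have h5 : ((l : ℝ) + 1) = (1 + 1 / (l : ℝ)) * l := by field_simp
          rw [h5, mul_pow]
          exact mul_le_mul_of_nonneg_right (h2.trans h3) (by positivity)
        exact_mod_cast h4
    calc (l + 1) ^ (l + 1) = (l + 1) ^ l * (l + 1) := pow_succ _ _
      _ ≤ (3 * l ^ l) * (l + 1) := Nat.mul_le_mul_right _ h1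
      _ ≤ (3 * (3 ^ l * l.factorial)) * (l + 1) :=
          Nat.mul_le_mul_right _ (Nat.mul_le_mul_left _ ih)
      _ = 3 ^ (l + 1) * (l + 1).factorial := by rw [Nat.factorial_succ]; ring

lemma choose_lt_pow {M S l : ℕ} (hl : 1 ≤ l) (h : 3 * M < S * l) : M.choose l < S ^ l := by
  have h1 : M.choose l * l.factorial ≤ M ^ l := by
    rw [mul_comm, ← Nat.descFactorial_eq_factorial_mul_choose]
    exact Nat.descFactorial_le_pow _ _
  have h2 : (3 * M) ^ l < (S * l) ^ l := Nat.pow_lt_pow_left h (by omega)
  have h3 := pow_self_le l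
  have h4 : M.choose l * (3 ^ l * l.factorial) < S ^ l * (3 ^ l * l.factorial) := by
    calc M.choose l * (3 ^ l * l.factorial) = 3 ^ l * (M.choose l * l.factorial) := by ring
      _ ≤ 3 ^ l * M ^ l := Nat.mul_le_mul_left _ h1
      _ = (3 * M) ^ l := (mul_pow _ _ _).symm
      _ < (S * l) ^ l := h2
      _ = S ^ l * l ^ l := mul_pow _ _ _
      _ ≤ S ^ l * (3 ^ l * l.factorial) := Nat.mul_le_mul_left _ h3
  exact Nat.lt_of_mul_lt_mul_right h4

/-! ### the law -/

variable {A : Type} [Fintype A]

theorem law_near [Nontrivial A] {p q : List (ℕ ⊕ A)} (h : Lang p ⊂ Lang q)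
    (hA : 3 ≤ Fintype.card A) (hl : p.length + 3 ≤ q.length + 2 * Fintype.card A) :
    2 * q.length + nvar p < 2 * p.length + nvar q := by
  have h0 := ne_length h.subset
  rcases Nat.lt_or_ge q.length p.length with h1 | h1
  · have h2 := rel_le h.subset hl
    omega
  · exact law_consts h (Or.inl h1)

theorem law_new [Nontrivial A] {p q : List (ℕ ⊕ A)} {a N : ℕ} (h : Lang p ⊂ Lang q)
    (hA : 3 ≤ Fintype.card A) (ha : 1 ≤ a)
    (hN : (N - (2 * Fintype.card A - 2) - 1).choose (2 * Fintype.card A - 2) <
      (Fintype.card A ^ a) ^ (2 * Fintype.card A - 2)) (hp : p.length ≤ N) :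
    (a + 1) * q.length + nvar p < (a + 1) * p.length + nvar q := by
  have h0 := ne_length h.subset
  by_cases hc : p.length + 3 ≤ q.length + 2 * Fintype.card A ∨
      (q.filterMap Sum.getLeft?).length < nvar q + (p.length - q.length)
  · have h1 : 2 * q.length + nvar p < 2 * p.length + nvar q := by
      rcases hc with hc | hc
      · exact law_near h hA hc
      · exact law_consts h (Or.inr hc)
    rw [h0] at h1 ⊢
    nlinarith
  · push Not at hc
    obtain ⟨h1, h2⟩ := hc
    refine law_count h ha h0 fun h3 => ?_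
    have hS : 1 ≤ Fintype.card A ^ a := Nat.one_le_pow _ _ (by omega)
    have h4 : (q.filterMap Sum.getLeft?).length ≤ q.length := List.length_filterMap_le _ _
    have h5 := num_all hS hN (p.length - q.length) (by omega)
    exact lt_of_le_of_lt (Nat.choose_le_choose _ (by omega)) h5

theorem chain_upper' [Nontrivial A] {p : List (ℕ ⊕ A)} {a n : ℕ}
    (hA : 3 ≤ Fintype.card A) (ha : 1 ≤ a)
    (hp : (p.length - (2 * Fintype.card A - 2) - 1).choose (2 * Fintype.card A - 2) <
      (Fintype.card A ^ a) ^ (2 * Fintype.card A - 2)) (h : HasChain p n) :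
    n + a + nvar p ≤ (a + 1) * p.length := by
  obtain ⟨c, _, hc0, hcn, hstep⟩ := h
  have hsub : ∀ d i, i + d = n → Lang p ⊆ Lang (c i) := by
    intro d
    induction d with
    | zero =>
      intro i hi
      have : i = n := by omega
      rw [this, hcn]
    | succ d ih =>
      intro i hi
      exact (ih (i + 1) (by omega)).trans (hstep i (by omega)).subset
  have key : ∀ i ≤ n, i + a + nvar (c i) ≤ (a + 1) * (c i).length := by
    intro i
    induction i with
    | zero =>
      intro _
      obtain ⟨h1, h2⟩ := lang_eq_invariant hc0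
      have h3 : nvar ([Sum.inl 1] : List (ℕ ⊕ A)) = 1 := by simp [nvar]
      rw [h1, h2, h3]
      simp
    | succ i ih =>
      intro hi
      have h1 := hstep i (by omega)
      have h2 := ih (by omega)
      have h3 : (c (i + 1)).length ≤ p.length :=
        length_le_of_subset (hsub (n - (i + 1)) (i + 1) (by omega))
      have h4 := law_new (a := a) h1 hA ha hp h3
      omega
  obtain ⟨h1, h2⟩ := lang_eq_invariant hcn
  have := key n le_rfl
  rw [h1, h2] at this
  exact this

theorem chain_exact' [Nontrivial A] {p : List (ℕ ⊕ A)} (h0 : p ≠ [])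
    (hA : 3 ≤ Fintype.card A)
    (hp : (p.length - (2 * Fintype.card A - 2) - 1).choose (2 * Fintype.card A - 2) <
      Fintype.card A ^ (2 * Fintype.card A - 2)) :
    IsGreatest {n | HasChain p n} (2 * p.length - nvar p - 1) := by
  constructor
  · obtain ⟨c, h1, h2, h3, h4⟩ := (chain_greatest h0).1
    exact ⟨c, h1, h2, h3, fun i hi => (h4 i hi).1⟩
  · intro n hn
    have := chain_upper' (a := 1) hA le_rfl (by rw [pow_one]; exact hp) hn
    omega

lemma closed_form {S a n : ℕ} (hS : 3 ≤ S) (h : 3 * n < 2 * (S - 1) * S ^ a + 6 * S - 3) :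
    (n - (2 * S - 2) - 1).choose (2 * S - 2) < (S ^ a) ^ (2 * S - 2) := by
  apply choose_lt_pow (by omega)
  obtain ⟨m, rfl⟩ : ∃ m, S = m + 1 := ⟨S - 1, by omega⟩
  have hp : 1 ≤ (m + 1) ^ a := Nat.one_le_pow _ _ (by omega)
  have h1 : 2 * (m + 1) - 2 = 2 * m := by omega
  rw [h1]
  rw [Nat.add_sub_cancel] at h
  have h6 : (m + 1) ^ a * (2 * m) = 2 * m * (m + 1) ^ a := by ring
  rw [h6]
  have h7 : 0 < 2 * m * (m + 1) ^ a := by
    have : 0 < m := by omega
    positivity
  omega

end Pool.Agent.W6.PAT
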