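import Mathlib
import Pool.Agent.W6.PAT.Law

namespace Pool.Agent.W6.PAT

open Pool.Agent.PatDepth Pool.Agent.H344R3.PD

/-- There are non-empty patterns `c 0, ..., c n` with
`L(x₁) = L(c 0) ⊋ L(c 1) ⊋ ... ⊋ L(c n) = L(p)` in which each pattern is at most `D` symbols longer
than the one before. -/
def HasStepChain {A : Type} (D : ℕ) (p : List (ℕ ⊕ A)) (n : ℕ) : Prop :=
  ∃ c : ℕ → List (ℕ ⊕ A), (∀ i ≤ n, c i ≠ []) ∧ Lang (c 0) = Lang [Sum.inl 1] ∧
    Lang (c n) = Lang p ∧
    ∀ i < n, Lang (c (i + 1)) ⊂ Lang (c i) ∧ (c (i + 1)).length ≤ (c i).length + D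

variable {A : Type} [Fintype A]

theorem step_exact [Nontrivial A] {p : List (ℕ ⊕ A)} (h0 : p ≠ []) (hA : 3 ≤ Fintype.card A) :
    IsGreatest {n | HasStepChain (2 * Fintype.card A - 3) p n} (2 * p.length - nvar p - 1) := by
  constructor
  · obtain ⟨c, h1, h2, h3, h4⟩ := (chain_greatest h0).1
    exact ⟨c, h1, h2, h3, fun i hi => ⟨(h4 i hi).1, by have := (h4 i hi).2; omega⟩⟩
  · rintro n ⟨c, _, hc0, hcn, hstep⟩
    have key : ∀ i ≤ n, i + 1 + nvar (c i) ≤ 2 * (c i).length := by
      intro i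
      induction i with
      | zero =>
        intro _
        obtain ⟨h1, h2⟩ := lang_eq_invariant hc0
        have h3 : nvar ([Sum.inl 1] : List (ℕ ⊕ A)) = 1 := by simp [nvar]
        rw [h1, h2, h3]
        simp
      | succ i ih =>
        intro hi
        have h1 := hstep i (by omega)
        have h2 := ih (by omega)
        have h4 := law_near h1.1 hA (by have := h1.2; omega)
        omega
    obtain ⟨h1, h2⟩ := lang_eq_invariant hcn
    have h3 := key n le_rfl
    rw [h1, h2] at h3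
    omega

end Pool.Agent.W6.PAT
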